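import Pool.Agent.Helper28.RG.DEN

/-! Project RG (MP_c9c10f), row C: approximation of `ev (1/5)` by trigonometric polynomials on `V`. -/

set_option autoImplicit false

open MeasureTheory Complex Pool.Agent.Helper1.RG
open scoped ComplexConjugate

namespace Pool.Agent.Helper28.RG

theorem Rj_zero : Rj 0 = RR := by
  ext x
  simp [Rj]

theorem trunc_meas {Ω : Type} {m : MeasurableSpace Ω} {g : Ω → ℂ} (hg : Measurable[m] g) :
    Measurable[m] (fun χ => if ‖g χ‖ ≤ 1 then g χ else 0) :=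
  Measurable.ite (measurableSet_le hg.norm measurable_const) hg measurable_const

theorem st_C (hA1 : ST_A1) (hDEN : ST_DEN) : ST_C := by
  intro P hP V hV hVe ε hε
  obtain ⟨hZ, hR, -, hcount, -⟩ := hA1
  have h0 : (0 : ℂ) ∈ RR := hZ 0 ⟨0, 0, by simp⟩
  set g : Om → ℂ := P[ev (1 / 5) | Fil 0] with hg
  have hgm : Measurable[sig RR] g := by
    have h1 : Measurable[Fil 0] g := stronglyMeasurable_condExp.measurable
    have h2 : Fil 0 = sig RR := by
      unfold Fil
      rw [Rj_zero]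
    rwa [h2] at h1
  set g' : Om → ℂ := fun χ => if ‖g χ‖ ≤ 1 then g χ else 0 with hg'
  have hg'm : Measurable[sig RR] g' := trunc_meas hgm
  have hg'b : ∀ χ, ‖g' χ‖ ≤ 1 := by
    intro χ
    simp only [hg']
    split_ifs with h
    · exact h
    · simp
  obtain ⟨F, c, hF, hFc⟩ := hDEN P hP RR hcount h0 (fun x hx y hy => (hR x hx y hy).2.2) g' 1 hg'm
    hg'b (ε / 20) (by positivity)
  refine ⟨F, c, hF, ?_⟩
  set q : Om → ℂ := fun χ => ∑ x ∈ F, c x * ev x χ with hq
  have hqm : Measurable q := Finset.measurable_fun_sum _ fun x _ => (ev_meas x).const_mul _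
  have hqb : ∀ χ, ‖q χ‖ ≤ ∑ x ∈ F, ‖c x‖ := by
    intro χ
    refine (norm_sum_le _ _).trans (Finset.sum_le_sum fun x _ => ?_)
    rw [norm_mul, ev_norm, mul_one]
  have hg'm' : Measurable g' := hg'm.mono (sig_le RR) le_rfl
  have hi : Integrable (fun χ => ‖g' χ - q χ‖) P := by
    refine Integrable.of_bound (hg'm'.sub hqm).norm.aestronglyMeasurable
      (1 + ∑ x ∈ F, ‖c x‖) (Filter.Eventually.of_forall fun χ => ?_)
    rw [norm_norm]
    exact (norm_sub_le _ _).trans (add_le_add (hg'b χ) (hqb χ))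
  have hM := mul_meas_ge_le_integral_of_nonneg
    (Filter.Eventually.of_forall fun χ => norm_nonneg (g' χ - q χ)) hi (1 / 20)
  have hle : P.real (V ∩ bad F c) ≤ P.real {χ | 1 / 20 ≤ ‖g' χ - q χ‖} := by
    refine ENNReal.toReal_mono (measure_ne_top _ _) (measure_mono_ae ?_)
    filter_upwards [hVe] with χ hχ
    intro hmem
    obtain ⟨h1, h2⟩ := hmem
    have h3 : g χ = ev (1 / 5) χ := hχ h1
    have h4 : g' χ = ev (1 / 5) χ := by
      simp only [hg']
      rw [if_pos (by rw [h3, ev_norm]), h3]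
    change 1 / 20 ≤ ‖g' χ - q χ‖
    rw [h4]
    exact le_of_lt h2
  have h5 : 1 / 20 * P.real {χ | 1 / 20 ≤ ‖g' χ - q χ‖} ≤ ε / 20 := hM.trans hFc
  linarith

end Pool.Agent.Helper28.RG
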