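import Pool.Agent.Helper1.RG.Defs

/-! Project RG (MP_c9c10f), row DEN: trigonometric polynomials are dense in `L¹` of the law of a
random character. -/

set_option autoImplicit false

open MeasureTheory Complex Pool.Agent.Helper1.RG
open scoped ComplexConjugate

namespace Pool.Agent.Helper28.RG

theorem ev_add (x y : ℂ) : ev (x + y) = ev x * ev y := by
  funext χ
  simp [ev, AddChar.map_add_eq_mul]

theorem ev_zero : ev 0 = 1 := by
  funext χ
  simp [ev]

theorem ev_neg (x : ℂ) : ev (-x) = star (ev x) := by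
  funext χ
  simp only [ev, Pi.star_apply, AddChar.map_neg_eq_inv, Circle.coe_inv]
  rw [Complex.inv_def]
  simp

theorem ev_norm (x : ℂ) (χ : Om) : ‖ev x χ‖ = 1 := Circle.norm_coe _

theorem sig_ev (S : Set ℂ) {x : ℂ} (hx : x ∈ S) : Measurable[sig S] (ev x) := by
  have h1 : Measurable[sig S, MeasurableSpace.pi] (fun (χ : Om) (x : S) => ev (x : ℂ) χ) :=
    comap_measurable _
  have h2 : Measurable (fun (f : S → ℂ) => f ⟨x, hx⟩) := measurable_pi_apply _
  exact h2.comp h1

theorem sig_mono {S T : Set ℂ} (h : S ⊆ T) : sig S ≤ sig T := by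
  have h1 : Measurable[sig T, MeasurableSpace.pi] (fun (χ : Om) (x : S) => ev (x : ℂ) χ) :=
    @measurable_pi_lambda _ _ _ (sig T) _ _ fun x => sig_ev T (h x.2)
  exact h1.comap_le

theorem sig_le (S : Set ℂ) : sig S ≤ instMeasOm := sig_mono (Set.subset_univ S)

theorem ev_meas (x : ℂ) : Measurable (ev x) := sig_ev Set.univ (Set.mem_univ x)

/-- trigonometric polynomials with frequencies in `S` -/
noncomputable def TP (S : Set ℂ) : Submodule ℂ (Om → ℂ) := Submodule.span ℂ (ev '' S)

theorem TP_mul {S : Set ℂ} (hS : ∀ x ∈ S, ∀ y ∈ S, x + y ∈ S) {a b : Om → ℂ} (ha : a ∈ TP S)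
    (hb : b ∈ TP S) : a * b ∈ TP S := by
  have h1 : a * b ∈ TP S * TP S := Submodule.mul_mem_mul ha hb
  unfold TP at h1
  rw [Submodule.span_mul_span] at h1
  refine Submodule.span_mono ?_ h1
  rintro _ ⟨_, ⟨x, hx, rfl⟩, _, ⟨y, hy, rfl⟩, rfl⟩
  exact ⟨x + y, hS x hx y hy, ev_add x y⟩

theorem TP_star {S : Set ℂ} (hS : ∀ x ∈ S, -x ∈ S) {a : Om → ℂ} (ha : a ∈ TP S) :
    star a ∈ TP S := by
  unfold TP at ha ⊢
  induction ha using Submodule.span_induction with
  | mem x hx =>
    obtain ⟨y, hy, rfl⟩ := hx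
    rw [← ev_neg]
    exact Submodule.subset_span ⟨-y, hS y hy, rfl⟩
  | zero => rw [star_zero]; exact zero_mem _
  | add x y _ _ hx hy => rw [star_add]; exact add_mem hx hy
  | smul c x _ hx => rw [star_smul]; exact Submodule.smul_mem _ _ hx

theorem TP_exists {S : Set ℂ} {a : Om → ℂ} (ha : a ∈ TP S) :
    ∃ (F : Finset ℂ) (c : ℂ → ℂ), (∀ x ∈ F, x ∈ S) ∧ ∀ χ, a χ = ∑ x ∈ F, c x * ev x χ := by
  unfold TP at ha
  obtain ⟨l, hl, hla⟩ := (Finsupp.mem_span_image_iff_linearCombination ℂ).1 ha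
  refine ⟨l.support, l, fun x hx => (Finsupp.mem_supported ℂ l).1 hl hx, fun χ => ?_⟩
  rw [← hla, Finsupp.linearCombination_apply, Finsupp.sum, Finset.sum_apply]
  rfl

/-- the closed disc -/
abbrev DD : Type := Metric.closedBall (0 : ℂ) 1

instance : CompactSpace DD := isCompact_iff_compactSpace.1 (isCompact_closedBall _ _)

/-- the values on `S` -/
noncomputable def Phi (S : Set ℂ) (χ : Om) : S → DD :=
  fun x => ⟨ev x χ, by rw [mem_closedBall_zero_iff, ev_norm]⟩

theorem Phi_meas (S : Set ℂ) : Measurable (Phi S) :=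
  measurable_pi_lambda _ fun x => (ev_meas x).subtype_mk

theorem st_DEN : ST_DEN := by
  intro P hP S hS h0 hsub g C hg hC ε hε
  have hneg : ∀ x ∈ S, -x ∈ S := fun x hx => by simpa using hsub 0 h0 x hx
  have hadd : ∀ x ∈ S, ∀ y ∈ S, x + y ∈ S := fun x hx y hy => by
    simpa using hsub x hx (-y) (hneg y hy)
  have hcS : Countable S := hS.to_subtype
  -- Doob-Dynkin
  obtain ⟨h, hhm, hhg⟩ := Measurable.exists_eq_measurable_comp hg
  set h' : (S → DD) → ℂ := fun k => h (fun x => (k x : ℂ)) with hh'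
  have hh'm : Measurable h' := hhm.comp (measurable_pi_lambda _ fun x =>
    measurable_subtype_coe.comp (measurable_pi_apply x))
  have hh'g : ∀ χ, h' (Phi S χ) = g χ := by
    intro χ
    rw [hhg]
    rfl
  have hgm : Measurable g := hg.mono (sig_le S) le_rfl
  have hgi : Integrable g P :=
    Integrable.of_bound hgm.aestronglyMeasurable C (Filter.Eventually.of_forall hC)
  set ν : Measure (S → DD) := P.map (Phi S) with hν
  have hνp : IsProbabilityMeasure ν := Measure.isProbabilityMeasure_map (Phi_meas S).aemeasurable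
  have hh'i : Integrable h' ν := by
    rw [hν, integrable_map_measure hh'm.aestronglyMeasurable (Phi_meas S).aemeasurable]
    have : h' ∘ Phi S = g := funext hh'g
    rw [this]
    exact hgi
  obtain ⟨g₁, hg₁, hg₁i⟩ := hh'i.exists_boundedContinuous_integral_sub_le (half_pos hε)
  -- Stone-Weierstrass
  let A : StarSubalgebra ℂ C(S → DD, ℂ) :=
    { carrier := {f | (fun χ => f (Phi S χ)) ∈ TP S}
      mul_mem' := fun {a b} ha hb => TP_mul hadd ha hb
      add_mem' := fun {a b} ha hb => (TP S).add_mem ha hb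
      algebraMap_mem' := fun r => by
        have h1 : (ev 0 : Om → ℂ) ∈ TP S := Submodule.subset_span ⟨0, h0, rfl⟩
        have h2 := (TP S).smul_mem r h1
        have h3 : (fun χ => (algebraMap ℂ C(S → DD, ℂ) r) (Phi S χ)) = r • ev 0 := by
          funext χ
          rw [ev_zero]
          simp
        change (fun χ => (algebraMap ℂ C(S → DD, ℂ) r) (Phi S χ)) ∈ TP S
        rw [h3]
        exact h2
      star_mem' := fun {a} ha => TP_star hneg ha }
  have hsep : A.SeparatesPoints := by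
    intro k l hkl
    obtain ⟨x, hx⟩ := Function.ne_iff.1 hkl
    let fx : C(S → DD, ℂ) := ⟨fun k => (k x : ℂ), continuous_subtype_val.comp (continuous_apply x)⟩
    refine ⟨fx, ⟨fx, ?_, rfl⟩, fun hc => hx (Subtype.ext hc)⟩
    have : (fun χ => fx (Phi S χ)) = ev x := rfl
    change (fun χ => fx (Phi S χ)) ∈ TP S
    rw [this]
    exact Submodule.subset_span ⟨x, x.2, rfl⟩
  have htop := ContinuousMap.starSubalgebra_topologicalClosure_eq_top_of_separatesPoints A hsep
  have hmem : g₁.toContinuousMap ∈ A.topologicalClosure := by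
    rw [htop]
    trivial
  rw [← SetLike.mem_coe, StarSubalgebra.topologicalClosure_coe, Metric.mem_closure_iff] at hmem
  obtain ⟨f, hf, hfd⟩ := hmem (ε / 2) (half_pos hε)
  obtain ⟨F, c, hF, hc⟩ := TP_exists (S := S) hf
  refine ⟨F, c, hF, ?_⟩
  have e1 : (fun χ => ‖g χ - ∑ x ∈ F, c x * ev x χ‖) = fun χ => ‖h' (Phi S χ) - f (Phi S χ)‖ := by
    funext χ
    rw [hh'g, ← hc χ]
  rw [e1]
  have hfm : Measurable fun k => ‖h' k - f k‖ := (hh'm.sub f.continuous.measurable).norm
  have e2 : ∫ χ, ‖h' (Phi S χ) - f (Phi S χ)‖ ∂P = ∫ k, ‖h' k - f k‖ ∂ν := by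
    rw [hν, integral_map (Phi_meas S).aemeasurable hfm.aestronglyMeasurable]
  rw [e2]
  have hgf : ∀ k, ‖g₁ k - f k‖ ≤ ε / 2 := by
    intro k
    have h1 := ContinuousMap.dist_apply_le_dist (f := g₁.toContinuousMap) (g := f) k
    rw [dist_eq_norm] at h1
    exact h1.trans hfd.le
  have hfi : Integrable (fun k => f k) ν := by
    refine Integrable.of_bound f.continuous.measurable.aestronglyMeasurable (‖f‖) ?_
    exact Filter.Eventually.of_forall fun k => f.norm_coe_le_norm k
  have hi : Integrable (fun k => ‖h' k - g₁ k‖) ν := (hh'i.sub hg₁i).norm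
  calc ∫ k, ‖h' k - f k‖ ∂ν ≤ ∫ k, (‖h' k - g₁ k‖ + ε / 2) ∂ν := by
        refine integral_mono (hh'i.sub hfi).norm
          (hi.add (integrable_const _)) fun k => ?_
        have : h' k - f k = (h' k - g₁ k) + (g₁ k - f k) := by ring
        change ‖h' k - f k‖ ≤ ‖h' k - g₁ k‖ + ε / 2
        rw [this]
        exact (norm_add_le _ _).trans (add_le_add le_rfl (hgf k))
    _ = ∫ k, ‖h' k - g₁ k‖ ∂ν + ε / 2 := by
        rw [integral_add hi (integrable_const _)]
        simp
    _ ≤ ε := by linarith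

end Pool.Agent.Helper28.RG
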